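import Pool.Agent.MP_c69980_ag.H39.Chain

/-!
Row 9, second part: pluricanonical forms along a disc have removable singularities.
-/

set_option autoImplicit false

noncomputable section

namespace Pool.Agent.MP_c69980_ag.H39

open MvPolynomial Metric Filter Topology Set
open H60 H4

variable {n : ℕ} {K : Type} [Field K] [Algebra ℂ K] {z : Fin n → K} {y : Fin n → ℂ} {f g : K}
  {E : Fin 2 → Derivation ℂ K K} {u α : Fin 2 → K} {U : Set (PS n)} {R : ℝ} {x : ℂ → Fin n → ℂ}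
  {w ζ : ℂ} {φ ψ : ℂ → ℂ}

/-! ### The chain rule is stable under the ring operations -/

lemma chain_add (hz : GenPt U z) (hx : Dk U 0 R x) (hw : w ∈ ball (0 : ℂ) R)
    (hf : Reg z (x w) f) (hg : Reg z (x w) g) (cf : Chain z E u f x w) (cg : Chain z E u g x w) :
    Chain z E u (f + g) x w := by
  have hy : On z (x w) := Cone.on hz (hx.2 w hw)
  have e : (fun s => vl z (f + g) (x s)) =ᶠ[𝓝 w] fun s => vl z f (x s) + vl z g (x s) := by
    filter_upwards [near hz hx hw hf, near hz hx hw hg] with s a b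
    exact (vl_add a.1 a.2 b.2).2
  refine ⟨fun i => by rw [pd_add]; exact (vl_add hy (cf.1 i) (cg.1 i)).1, ?_⟩
  rw [e.deriv_eq, deriv_fun_add (hx.an hz hw hf).differentiableAt
    (hx.an hz hw hg).differentiableAt, cf.2, cg.2]
  simp only [pd_add, (vl_add hy (cf.1 _) (cg.1 _)).2, Fin.sum_univ_two]
  ring

lemma chain_mul (hz : GenPt U z) (hx : Dk U 0 R x) (hw : w ∈ ball (0 : ℂ) R)
    (hf : Reg z (x w) f) (hg : Reg z (x w) g) (cf : Chain z E u f x w) (cg : Chain z E u g x w) :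
    Chain z E u (f * g) x w := by
  have hy : On z (x w) := Cone.on hz (hx.2 w hw)
  have e : (fun s => vl z (f * g) (x s)) =ᶠ[𝓝 w] fun s => vl z f (x s) * vl z g (x s) := by
    filter_upwards [near hz hx hw hf, near hz hx hw hg] with s a b
    exact (vl_mul a.1 a.2 b.2).2
  have a := fun i => vl_mul hy hf (cg.1 i)
  have b := fun i => vl_mul hy hg (cf.1 i)
  refine ⟨fun i => by rw [pd_mul]; exact (vl_add hy (a i).1 (b i).1).1, ?_⟩
  rw [e.deriv_eq, deriv_fun_mul (hx.an hz hw hf).differentiableAt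
    (hx.an hz hw hg).differentiableAt, cf.2, cg.2]
  simp only [pd_mul, (vl_add hy (a _).1 (b _).1).2, (a _).2, (b _).2, Fin.sum_univ_two]
  ring

lemma chain_const (hz : GenPt U z) (hx : Dk U 0 R x) (hw : w ∈ ball (0 : ℂ) R) (c : ℂ) :
    Chain z E u (algebraMap ℂ K c) x w := by
  have hy : On z (x w) := Cone.on hz (hx.2 w hw)
  have e : (fun s => vl z (algebraMap ℂ K c) (x s)) =ᶠ[𝓝 w] fun _ => c := by
    filter_upwards [near hz hx hw (vl_const hy c).1] with s a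
    exact (vl_const a.1 c).2
  refine ⟨fun i => by rw [pd_const]; exact (vl_zero hy).1, ?_⟩
  rw [e.deriv_eq]
  simp [pd_const, (vl_zero hy).2]

lemma chain_inv (hz : GenPt U z) (hx : Dk U 0 R x) (hw : w ∈ ball (0 : ℂ) R)
    (hf : Reg z (x w) f) (h0 : vl z f (x w) ≠ 0) (cf : Chain z E u f x w) :
    Chain z E u f⁻¹ x w := by
  have hy : On z (x w) := Cone.on hz (hx.2 w hw)
  have an := hx.an hz hw hf
  have e : (fun s => vl z f⁻¹ (x s)) =ᶠ[𝓝 w] fun s => (vl z f (x s))⁻¹ := by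
    filter_upwards [near hz hx hw hf, an.continuousAt.eventually_ne h0] with s a b
    exact (vl_inv a.1 a.2 b).2
  have i0 := vl_inv hy hf h0
  have a := vl_mul hy i0.1 i0.1
  have b := fun i => vl_mul hy a.1 (cf.1 i)
  refine ⟨fun i => by rw [pd_inv]; exact (vl_neg hy (b i).1).1, ?_⟩
  rw [e.deriv_eq, deriv_fun_inv'' an.differentiableAt h0, cf.2]
  simp only [pd_inv, (vl_neg hy (b _).1).2, (b _).2, a.2, i0.2, Fin.sum_univ_two]
  field_simp
  ring

/-! ### Germs of values -/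

/-- The values of `g` along `x` near `ζ` are given by `φ`. -/
def Rp (z : Fin n → K) (x : ℂ → Fin n → ℂ) (ζ : ℂ) (g : K) (φ : ℂ → ℂ) : Prop :=
  ∀ᶠ w in 𝓝[≠] ζ, On z (x w) ∧ Reg z (x w) g ∧ vl z g (x w) = φ w

lemma Rp.add (h : Rp z x ζ f φ) (h' : Rp z x ζ g ψ) : Rp z x ζ (f + g) fun w => φ w + ψ w := by
  filter_upwards [h, h'] with w a b
  exact ⟨a.1, (vl_add a.1 a.2.1 b.2.1).1, by rw [(vl_add a.1 a.2.1 b.2.1).2, a.2.2, b.2.2]⟩

lemma Rp.mul (h : Rp z x ζ f φ) (h' : Rp z x ζ g ψ) : Rp z x ζ (f * g) fun w => φ w * ψ w := by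
  filter_upwards [h, h'] with w a b
  exact ⟨a.1, (vl_mul a.1 a.2.1 b.2.1).1, by rw [(vl_mul a.1 a.2.1 b.2.1).2, a.2.2, b.2.2]⟩

lemma Rp.neg (h : Rp z x ζ f φ) : Rp z x ζ (-f) fun w => -φ w := by
  filter_upwards [h] with w a
  exact ⟨a.1, (vl_neg a.1 a.2.1).1, by rw [(vl_neg a.1 a.2.1).2, a.2.2]⟩

lemma Rp.inv (h : Rp z x ζ f φ) (h0 : ∀ᶠ w in 𝓝[≠] ζ, φ w ≠ 0) :
    Rp z x ζ f⁻¹ fun w => (φ w)⁻¹ := by
  filter_upwards [h, h0] with w a b
  have := vl_inv a.1 a.2.1 (by rw [a.2.2]; exact b)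
  exact ⟨a.1, this.1, by rw [this.2, a.2.2]⟩

lemma Rp.congr (h : Rp z x ζ f φ) (e : φ =ᶠ[𝓝[≠] ζ] ψ) : Rp z x ζ f ψ := by
  filter_upwards [h, e] with w a b
  exact ⟨a.1, a.2.1, a.2.2.trans b⟩

lemma Rp.eq (h : Rp z x ζ f φ) (h' : Rp z x ζ f ψ) : φ =ᶠ[𝓝[≠] ζ] ψ := by
  filter_upwards [h, h'] with w a b
  exact a.2.2.symm.trans b.2.2

lemma inb (hζ : ζ ∈ ball (0 : ℂ) R) : ∀ᶠ w in 𝓝[≠] ζ, w ∈ ball (0 : ℂ) R :=
  mem_nhdsWithin_of_mem_nhds (isOpen_ball.mem_nhds hζ)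

lemma rp_const (hz : GenPt U z) (hx : Dk U 0 R x) (hζ : ζ ∈ ball (0 : ℂ) R) (c : ℂ) :
    Rp z x ζ (algebraMap ℂ K c) fun _ => c := (inb hζ).mono fun w hw =>
  ⟨Cone.on hz (hx.2 w hw), vl_const (Cone.on hz (hx.2 w hw)) c⟩

lemma rp_self (hz : GenPt U z) (hx : Dk U 0 R x) (hζ : ζ ∈ ball (0 : ℂ) R)
    (h : ∀ᶠ w in 𝓝[≠] ζ, Reg z (x w) g) : Rp z x ζ g fun w => vl z g (x w) := by
  filter_upwards [inb hζ, h] with w a b
  exact ⟨Cone.on hz (hx.2 w a), b, rfl⟩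

lemma rp_aeval {k : ℕ} {t : Fin k → K} {τ : Fin k → ℂ → ℂ} (hz : GenPt U z) (hx : Dk U 0 R x)
    (hζ : ζ ∈ ball (0 : ℂ) R) (h : ∀ j, Rp z x ζ (t j) (τ j)) (F : PR k) :
    Rp z x ζ (aeval t F) fun w => eval (fun j => τ j w) F := by
  filter_upwards [eventually_all.2 h, inb hζ] with w a b
  have hy : On z (x w) := Cone.on hz (hx.2 w b)
  have := vl_aeval hy (fun j => (a j).2.1) F
  refine ⟨hy, this.1, this.2.trans ?_⟩
  simp only [(a _).2.2]

lemma mero (hz : GenPt U z) (hx : Dk U 0 R x) (hζ : ζ ∈ ball (0 : ℂ) R)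
    (h : ∀ᶠ w in 𝓝[≠] ζ, Reg z (x w) g) : MeromorphicAt (fun s => vl z g (x s)) ζ := by
  obtain ⟨w0, ⟨F, G, d, hF, hG, h1, rfl⟩, hw0⟩ := (h.and (inb hζ)).exists
  have e : ∀ᶠ s in 𝓝[≠] ζ, On z (x s) ∧ eval (x s) G ≠ 0 := by
    filter_upwards [NZ.ev (eval_diff hx.1 G) ⟨w0, hw0, h1⟩ hζ, inb hζ] with s h2 h3
    exact ⟨Cone.on hz (hx.2 s h3), h2⟩
  refine ((Hol.at (eval_diff hx.1 F) hζ).meromorphicAt.div
      (Hol.at (eval_diff hx.1 G) hζ).meromorphicAt).congr (e.mono fun s hs => ?_)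
  exact (vl_eq hs.1 hF hG hs.2).symm

/-- The values of `g` along `x` extend analytically. -/
def An (z : Fin n → K) (x : ℂ → Fin n → ℂ) (ζ : ℂ) (g : K) : Prop :=
  ∃ φ, AnalyticAt ℂ φ ζ ∧ Rp z x ζ g φ

lemma An.add (h : An z x ζ f) (h' : An z x ζ g) : An z x ζ (f + g) :=
  h.elim fun _ a => h'.elim fun _ b => ⟨_, a.1.fun_add b.1, a.2.add b.2⟩

lemma An.mul (h : An z x ζ f) (h' : An z x ζ g) : An z x ζ (f * g) :=
  h.elim fun _ a => h'.elim fun _ b => ⟨_, a.1.fun_mul b.1, a.2.mul b.2⟩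

lemma An.neg (h : An z x ζ f) : An z x ζ (-f) := h.elim fun _ a => ⟨_, a.1.fun_neg, a.2.neg⟩

/-- The vector field. -/
def xi (E : Fin 2 → Derivation ℂ K K) (u α : Fin 2 → K) (f : K) : K :=
  α 0 * pd E u 0 f + α 1 * pd E u 1 f

/-- The good functions. -/
def Gd (z : Fin n → K) (E : Fin 2 → Derivation ℂ K K) (u α : Fin 2 → K) (x : ℂ → Fin n → ℂ)
    (ζ : ℂ) (f : K) : Prop :=
  An z x ζ f ∧ An z x ζ (xi E u α f) ∧ ∀ᶠ w in 𝓝[≠] ζ, Chain z E u f x w

/-- The good functions form a ring. -/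
def gd (hz : GenPt U z) (hx : Dk U 0 R x) (hζ : ζ ∈ ball (0 : ℂ) R)
    (E : Fin 2 → Derivation ℂ K K) (u α : Fin 2 → K) : Subalgebra ℂ K where
  carrier := {f | Gd z E u α x ζ f}
  mul_mem' := fun {f g} a b => by
    refine ⟨a.1.mul b.1, ?_, ?_⟩
    · have : xi E u α (f * g) = f * xi E u α g + g * xi E u α f := by
        simp only [xi, pd_mul]; ring
      rw [this]
      exact (a.1.mul b.2.1).add (b.1.mul a.2.1)
    · obtain ⟨_, -, a1⟩ := a.1
      obtain ⟨_, -, b1⟩ := b.1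
      filter_upwards [a1, b1, a.2.2, b.2.2, inb hζ] with w c1 c2 c3 c4 c5
      exact chain_mul hz hx c5 c1.2.1 c2.2.1 c3 c4
  add_mem' := fun {f g} a b => by
    refine ⟨a.1.add b.1, ?_, ?_⟩
    · have : xi E u α (f + g) = xi E u α f + xi E u α g := by
        simp only [xi, pd_add]; ring
      rw [this]
      exact a.2.1.add b.2.1
    · obtain ⟨_, -, a1⟩ := a.1
      obtain ⟨_, -, b1⟩ := b.1
      filter_upwards [a1, b1, a.2.2, b.2.2, inb hζ] with w c1 c2 c3 c4 c5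
      exact chain_add hz hx c5 c1.2.1 c2.2.1 c3 c4
  algebraMap_mem' := fun c => by
    refine ⟨⟨_, analyticAt_const, rp_const hz hx hζ c⟩, ?_,
      (inb hζ).mono fun w hw => chain_const hz hx hw c⟩
    have : xi E u α (algebraMap ℂ K c) = algebraMap ℂ K 0 := by simp [xi, pd_const]
    rw [this]
    exact ⟨_, analyticAt_const, rp_const hz hx hζ 0⟩

lemma Gd.inv (hz : GenPt U z) (hx : Dk U 0 R x) (hζ : ζ ∈ ball (0 : ℂ) R)
    (h : Gd z E u α x ζ f) (a1 : AnalyticAt ℂ φ ζ) (a2 : Rp z x ζ f φ) (a3 : φ ζ ≠ 0) :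
    Gd z E u α x ζ f⁻¹ := by
  have e : ∀ᶠ w in 𝓝[≠] ζ, φ w ≠ 0 :=
    mem_nhdsWithin_of_mem_nhds (a1.continuousAt.eventually_ne a3)
  have b : An z x ζ f⁻¹ := ⟨_, a1.fun_inv a3, a2.inv e⟩
  refine ⟨b, ?_, ?_⟩
  · have : xi E u α f⁻¹ = -(f⁻¹ * f⁻¹ * xi E u α f) := by
      simp only [xi, pd_inv]; ring
    rw [this]
    exact ((b.mul b).mul h.2.1).neg
  · filter_upwards [a2, e, h.2.2, inb hζ] with w c1 c2 c3 c4
    exact chain_inv hz hx c4 c1.2.1 (by rw [c1.2.2]; exact c2) c3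

/-- The contraction of the area form with the vector field and the tangent vector. -/
def bt (z : Fin n → K) (u α : Fin 2 → K) (x : ℂ → Fin n → ℂ) (w : ℂ) : ℂ :=
  vl z (α 0) (x w) * deriv (fun s => vl z (u 1) (x s)) w -
    vl z (α 1) (x w) * deriv (fun s => vl z (u 0) (x s)) w

/-- `q` times the `a`-th power of the contraction extends analytically. -/
def Tw (z : Fin n → K) (u α : Fin 2 → K) (x : ℂ → Fin n → ℂ) (ζ : ℂ) (a : ℕ) (q : K) : Prop :=
  ∃ φ, AnalyticAt ℂ φ ζ ∧ ∀ᶠ w in 𝓝[≠] ζ, On z (x w) ∧ Reg z (x w) q ∧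
    vl z q (x w) * bt z u α x w ^ a = φ w

lemma Tw.add {a : ℕ} (h : Tw z u α x ζ a f) (h' : Tw z u α x ζ a g) : Tw z u α x ζ a (f + g) := by
  obtain ⟨φ, a1, a2⟩ := h
  obtain ⟨ψ, b1, b2⟩ := h'
  refine ⟨_, a1.fun_add b1, ?_⟩
  filter_upwards [a2, b2] with w c d
  exact ⟨c.1, (vl_add c.1 c.2.1 d.2.1).1, by
    rw [(vl_add c.1 c.2.1 d.2.1).2, add_mul, c.2.2, d.2.2]⟩

lemma Tw.mul {a b : ℕ} (h : Tw z u α x ζ a f) (h' : Tw z u α x ζ b g) :
    Tw z u α x ζ (a + b) (f * g) := by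
  obtain ⟨φ, a1, a2⟩ := h
  obtain ⟨ψ, b1, b2⟩ := h'
  refine ⟨_, a1.fun_mul b1, ?_⟩
  filter_upwards [a2, b2] with w c d
  refine ⟨c.1, (vl_mul c.1 c.2.1 d.2.1).1, ?_⟩
  rw [(vl_mul c.1 c.2.1 d.2.1).2, ← c.2.2, ← d.2.2]
  ring

lemma An.tw (h : An z x ζ f) : Tw z u α x ζ 0 f := by
  obtain ⟨φ, a1, a2⟩ := h
  exact ⟨φ, a1, a2.mono fun w c => ⟨c.1, c.2.1, by rw [pow_zero, mul_one, c.2.2]⟩⟩

lemma Tw.prod {ι : Type} (h1 : An z x ζ 1) (s : Finset ι) (q : ι → K)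
    (h : ∀ i ∈ s, Tw z u α x ζ 1 (q i)) : Tw z u α x ζ s.card (∏ i ∈ s, q i) := by
  classical
  induction s using Finset.induction_on with
  | empty => simpa using h1.tw
  | insert i s hi ih =>
    rw [Finset.prod_insert hi, Finset.card_insert_of_notMem hi, add_comm]
    exact (h i (Finset.mem_insert_self _ _)).mul (ih fun j hj => h j (Finset.mem_insert_of_mem hj))

lemma tw_wd (hW : Wd E (u 0) (u 1) ≠ 0) (hα : ∀ᶠ w in 𝓝[≠] ζ, ∀ i, Reg z (x w) (α i))
    (hf : Gd z E u α x ζ f) (hg : Gd z E u α x ζ g) :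
    Tw z u α x ζ 1 (Wd E f g / Wd E (u 0) (u 1)) := by
  obtain ⟨⟨φ, a1, a2⟩, ⟨φ', a3, a4⟩, a5⟩ := hf
  obtain ⟨⟨ψ, b1, b2⟩, ⟨ψ', b3, b4⟩, b5⟩ := hg
  have d1 : deriv (fun s => vl z f (x s)) =ᶠ[𝓝[≠] ζ] deriv φ :=
    Filter.EventuallyEq.nhdsNE_deriv (a2.mono fun w c => c.2.2)
  have d2 : deriv (fun s => vl z g (x s)) =ᶠ[𝓝[≠] ζ] deriv ψ :=
    Filter.EventuallyEq.nhdsNE_deriv (b2.mono fun w c => c.2.2)
  refine ⟨fun w => φ' w * deriv ψ w - ψ' w * deriv φ w,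
    (a3.fun_mul b1.deriv).fun_sub (b3.fun_mul a1.deriv), ?_⟩
  filter_upwards [hα, a4, a5, b4, b5, d1, d2] with w c0 c1 c2 c3 c4 c5 c6
  have hy := c1.1
  have m1 := vl_mul hy (c2.1 0) (c4.1 1)
  have m2 := vl_mul hy (c2.1 1) (c4.1 0)
  have m3 := vl_neg hy m2.1
  have m4 := vl_add hy m1.1 m3.1
  have x1 : ∀ {k : K}, Chain z E u k x w → vl z (xi E u α k) (x w) =
      vl z (α 0) (x w) * vl z (pd E u 0 k) (x w) + vl z (α 1) (x w) * vl z (pd E u 1 k) (x w) :=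
    fun c => by
      rw [xi, (vl_add hy (vl_mul hy (c0 0) (c.1 0)).1 (vl_mul hy (c0 1) (c.1 1)).1).2,
        (vl_mul hy (c0 0) (c.1 0)).2, (vl_mul hy (c0 1) (c.1 1)).2]
  rw [wd_pd hW, sub_eq_add_neg]
  refine ⟨hy, m4.1, ?_⟩
  rw [m4.2, m3.2, m1.2, m2.2, ← c1.2.2, ← c3.2.2, ← c5, ← c6, c2.2, c4.2, x1 c2, x1 c4, bt]
  simp only [Fin.sum_univ_two]
  ring

theorem p2S : P2Stmt := by
  classical
  intro K _ _ n n' U z W z' π m E h u α R x ζ hL hz hW hx hζ hev hrem l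
  obtain ⟨hWc, hz', -, -, -, -, -, hpt⟩ := hL
  have hz0 : ∃ j, z' j ≠ 0 := by
    by_contra hn
    push Not at hn
    obtain ⟨P, hP⟩ : W.Nonempty := by
      by_contra hS
      simpa using (hz'.1 1 0 (isHomogeneous_one _ _)).2 fun P hP => (hS ⟨P, hP⟩).elim
    obtain ⟨i, hi⟩ := Function.ne_iff.1 P.rep_nonzero
    exact hi (by simpa using (hz'.1 (X i) 1 (isHomogeneous_X _ _)).1 (by simp [hn]) P hP)
  have hun : ∀ j, z' j ≠ 0 → ∀ᶠ w in 𝓝[≠] ζ, Un z (x w) (z' j) := fun j hj =>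
    hev.mono fun w a => (a.2.2 j hj).1
  have hrp : ∀ j, z' j ≠ 0 → Rp z x ζ (z' j) fun w => vl z (z' j) (x w) := fun j hj =>
    rp_self hz hx hζ ((hun j hj).mono fun w a => a.1)
  have hme : ∀ j, z' j ≠ 0 → MeromorphicAt (fun w => vl z (z' j) (x w)) ζ := fun j hj =>
    mero hz hx hζ ((hun j hj).mono fun w a => a.1)
  have hα : ∀ᶠ w in 𝓝[≠] ζ, ∀ i, Reg z (x w) (α i) := hev.mono fun w a i => (a.1 i).2
  obtain ⟨i, hi, hmin⟩ := (Finset.univ.filter fun j => z' j ≠ 0).exists_min_image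
    (fun j => meromorphicOrderAt (fun w => vl z (z' j) (x w)) ζ)
    (hz0.elim fun j hj => ⟨j, by simpa using hj⟩)
  have i0 : z' i ≠ 0 := by simpa using hi
  have ine : ∀ᶠ w in 𝓝[≠] ζ, vl z (z' i) (x w) ≠ 0 := (hun i i0).mono fun w a => a.2
  let A := gd hz hx hζ E u α
  let t : Fin n' → K := fun j => (z' i)⁻¹ * z' j
  have hlog : ∀ j, z' j ≠ 0 → An z x ζ (xi E u α (z' j) / z' j) := fun j hj => by
    obtain ⟨φ, a1, a2⟩ := hrem j
    refine ⟨φ, a1, (rp_self hz hx hζ ?_).congr a2⟩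
    filter_upwards [hev, inb hζ] with w a b
    have hy : On z (x w) := Cone.on hz (hx.2 w b)
    obtain ⟨c1, c2⟩ := a.2.2 j hj
    rw [div_eq_mul_inv]
    exact (vl_mul hy (vl_add hy (vl_mul hy (a.1 0).2 (c2.1 0)).1
      (vl_mul hy (a.1 1).2 (c2.1 1)).1).1 (vl_inv hy c1.1 c1.2).1).1
  have ht : ∀ j, t j ∈ A := fun j => by
    by_cases hj : z' j = 0
    · simp only [t, hj, mul_zero]
      exact A.zero_mem
    have a0 : An z x ζ (t j) := by
      have b1 := (meromorphicOrderAt_ne_top_iff_eventually_ne_zero (hme i i0)).2 ine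
      have b2 := hmin j (by simpa using hj)
      obtain ⟨φ, a1, a2⟩ := ((hme i i0).inv.mul (hme j hj)).meromorphicOrderAt_nonneg_iff.1 (by
        rw [meromorphicOrderAt_mul (hme i i0).inv (hme j hj), meromorphicOrderAt_inv]
        lift meromorphicOrderAt (fun w => vl z (z' i) (x w)) ζ to ℤ using b1 with a
        cases hb : meromorphicOrderAt (fun w => vl z (z' j) (x w)) ζ with
        | top => simp
        | coe b =>
          rw [hb] at b2
          norm_cast at b2 ⊢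
          omega)
      exact ⟨φ, a1, (((hrp i i0).inv ine).mul (hrp j hj)).congr a2⟩
    refine ⟨a0, ?_, ?_⟩
    · have : xi E u α (t j) = t j * (xi E u α (z' j) / z' j + -(xi E u α (z' i) / z' i)) := by
        simp only [xi, t, pd_mul, pd_inv]
        field_simp
        ring
      rw [this]
      exact a0.mul ((hlog j hj).add (hlog i i0).neg)
    · filter_upwards [hev, inb hζ] with w a b
      have hy : On z (x w) := Cone.on hz (hx.2 w b)
      obtain ⟨c1, c2⟩ := a.2.2 i i0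
      obtain ⟨c3, c4⟩ := a.2.2 j hj
      exact chain_mul hz hx b (vl_inv hy c1.1 c1.2).1 c3.1 (chain_inv hz hx b c1.1 c1.2 c2) c4
  choose τ τ1 τ2 using fun j => (ht j).1
  let y : Fin n' → ℂ := fun j => τ j ζ
  have yi : y i = 1 := by
    have a := τ2 i
    have e : t i = algebraMap ℂ K 1 := by simp [t, i0]
    rw [e] at a
    exact eq_of_ev (τ1 i).continuousAt continuousAt_const (a.eq (rp_const hz hx hζ 1))
  have y0 : y ≠ 0 := fun e => by simpa [yi] using congrFun e i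
  have hae : ∀ F : PR n', aeval t F ∈ A ∧ AnalyticAt ℂ (fun w => eval (fun j => τ j w) F) ζ ∧
      Rp z x ζ (aeval t F) fun w => eval (fun j => τ j w) F := fun F => by
    refine ⟨?_, ?_, rp_aeval hz hx hζ τ2 F⟩
    · have e : (aeval (fun j => (⟨t j, ht j⟩ : A)) F : A) = aeval t F :=
        comp_aeval_apply _ A.val F
      rw [← e]
      exact Subtype.prop _
    · exact AnalyticAt.aeval_mvPolynomial (f := fun w j => τ j w) τ1 F
  have hon : On z' y := fun G d hG e => by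
    have a := (hae G).2.2
    have e' : aeval t G = algebraMap ℂ K 0 := by
      rw [map_zero]
      exact (aeval_scale hG _ _).trans (by rw [e, mul_zero])
    rw [e'] at a
    exact eq_of_ev (hae G).2.1.continuousAt continuousAt_const (a.eq (rp_const hz hx hζ 0))
  let P : PS n' := Projectivization.mk ℂ y y0
  have honP : On z' P.rep := fun G d hG e => (eval_mk hG y0).2 (hon G d hG e)
  have hPW : P ∈ W := by
    obtain ⟨S, hS, rfl⟩ := hWc
    intro F hF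
    obtain ⟨d, hd⟩ := hS F hF
    exact honP F d hd ((hz'.1 F d hd).mpr fun P hP => hP F hF)
  have hloc : ∀ f ∈ locRing z' P, f ∈ A ∧ ∃ φ, AnalyticAt ℂ φ ζ ∧ Rp z x ζ f φ ∧
      (φ ζ ≠ 0 → f ≠ 0 ∧ f⁻¹ ∈ locRing z' P) := fun f hf => by
    obtain ⟨F, G, d, hF, hG, h1, rfl⟩ := (mem_locRing honP _).1 hf
    have h2 : eval y G ≠ 0 := (eval_mk hG y0).not.1 h1
    have e : aeval z' F / aeval z' G = aeval t F * (aeval t G)⁻¹ := by
      rw [show aeval t F = _ from aeval_scale hF _ _, show aeval t G = _ from aeval_scale hG _ _,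
        ← div_eq_mul_inv, mul_div_mul_left _ _ (pow_ne_zero _ (inv_ne_zero i0))]
    refine ⟨?_, fun w => eval (fun j => τ j w) F * (eval (fun j => τ j w) G)⁻¹,
      (hae F).2.1.fun_mul ((hae G).2.1.fun_inv h2), ?_, fun h3 => ?_⟩
    · rw [e]
      exact A.mul_mem (hae F).1 (Gd.inv hz hx hζ (hae G).1 (hae G).2.1 (hae G).2.2 h2)
    · rw [e]
      exact (hae F).2.2.mul ((hae G).2.2.inv
        (mem_nhdsWithin_of_mem_nhds ((hae G).2.1.continuousAt.eventually_ne h2)))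
    · have h4 : eval y F ≠ 0 := left_ne_zero_of_mul h3
      refine ⟨div_ne_zero (fun e => h4 (hon F d hF e)) (fun e => h2 (hon G d hG e)), ?_⟩
      rw [inv_div]
      exact (mem_locRing honP _).2 ⟨G, F, d, hG, hF, (eval_mk hF y0).not.2 h4, rfl⟩
  obtain ⟨-, hx1, hx2, s, r, G, e, -, hs0, -, hG0, hG, hg⟩ := hpt P hPW
  have hp : On z (π P).rep := fun G e hG h => mem_zcl.mp hx1 G e hG ((hz.1 G e hG).mp h)
  obtain ⟨b, hb⟩ := Function.ne_iff.mp (π P).rep_nonzero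
  have hb' : eval (π P).rep (X b : PR n) ≠ 0 := by simpa using hb
  have hzb : z b ≠ 0 := fun h => hb' (hp _ _ (isHomogeneous_X _ b) (by simpa using h))
  have xc : ContinuousAt x ζ := (hx.1.differentiableAt (isOpen_ball.mem_nhds hζ)).continuousAt
  have key : ∀ a, x ζ a = (π P).rep a / (π P).rep b * x ζ b := fun a => by
    set c := (π P).rep a / (π P).rep b with hc
    have r1 : Reg z (π P).rep (z a / z b) :=
      ⟨X a, X b, 1, isHomogeneous_X _ _, isHomogeneous_X _ _, hb', by simp⟩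
    have v1 : vl z (z a / z b) (π P).rep = c := by
      simpa using vl_eq hp (isHomogeneous_X ℂ a) (isHomogeneous_X ℂ b) hb'
    have r2 := vl_add hp r1 (vl_const hp (-c)).1
    rw [v1, (vl_const hp (-c)).2, add_neg_cancel] at r2
    have m1 : z a / z b + algebraMap ℂ K (-c) ∈ locRing z (π P) := (mem_locRing hp _).2 r2.1
    obtain ⟨-, φ, a1, a2, a3⟩ := hloc _ (hx2 _ m1).1
    have a4 : φ ζ = 0 := by
      by_contra hn
      have r3 : Reg z (π P).rep _ := (mem_locRing hp _).1 ((hx2 _ m1).2 (a3 hn).2)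
      have r4 := (vl_mul hp r2.1 r3).2
      rw [mul_inv_cancel₀ (a3 hn).1, r2.2, zero_mul, ← map_one (algebraMap ℂ K),
        (vl_const hp 1).2] at r4
      exact one_ne_zero r4
    have a5 : (fun w => x w a) =ᶠ[𝓝[≠] ζ] fun w => (φ w + c) * x w b := by
      filter_upwards [a2, hev] with w c1 c2
      have xb : x w b ≠ 0 := c2.2.1 b hzb
      have xb' : eval (x w) (X b : PR n) ≠ 0 := by simpa using xb
      have r5 : Reg z (x w) (z a / z b) :=
        ⟨X a, X b, 1, isHomogeneous_X _ _, isHomogeneous_X _ _, xb', by simp⟩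
      have v5 : vl z (z a / z b) (x w) = x w a / x w b := by
        simpa using vl_eq c1.1 (isHomogeneous_X ℂ a) (isHomogeneous_X ℂ b) xb'
      rw [← c1.2.2, (vl_add c1.1 r5 (vl_const c1.1 (-c)).1).2, v5, (vl_const c1.1 (-c)).2]
      field_simp
      ring
    have := eq_of_ev (continuousAt_pi.1 xc a)
      ((a1.continuousAt.add continuousAt_const).mul (continuousAt_pi.1 xc b)) a5
    simpa [a4] using this
  obtain ⟨x0, xU⟩ := hx.2 ζ hζ
  have hU : π P ∈ U := by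
    have : Projectivization.mk ℂ (x ζ) x0 = π P := by
      rw [← (π P).mk_rep, Projectivization.mk_eq_mk_iff']
      refine ⟨x ζ b / (π P).rep b, funext fun a => ?_⟩
      rw [key a, Pi.smul_apply, smul_eq_mul]
      ring
    exact this ▸ xU
  have hs := ((hG P hPW hG0).2).mp hU
  have hs1 : ∏ j ∈ r, (s j : K) ≠ 0 :=
    Finset.prod_ne_zero_iff.mpr fun j _ h => hs0 j (Subtype.ext h)
  have h2 : h l ∈ pluri z' E m P := by
    have := Submodule.smul_mem _ (⟨_, hs⟩ ^ m : locRing z' P) (hg l)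
    rwa [Subalgebra.smul_def, smul_eq_mul, SubmonoidClass.coe_pow, ← mul_assoc, ← mul_pow,
      inv_mul_cancel₀ hs1, one_pow, one_mul] at this
  have h3 : Tw z u α x ζ m (h l / Wd E (u 0) (u 1) ^ m) := by
    generalize h l = q at h2
    induction h2 using Submodule.span_induction with
    | mem q hq =>
      obtain ⟨f, hf, rfl⟩ := hq
      have := Tw.prod (u := u) (α := α) (A.one_mem).1 Finset.univ
        (fun a => Wd E (f a 0) (f a 1) / Wd E (u 0) (u 1))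
        fun a _ => tw_wd hW hα (hloc _ (hf a 0)).1 (hloc _ (hf a 1)).1
      rw [Finset.prod_div_distrib, Finset.prod_const, Finset.card_univ, Fintype.card_fin] at this
      have e : ∀ a, Matrix.det (Matrix.of fun i l => E i (f a l)) = Wd E (f a 0) (f a 1) :=
        fun a => by
          rw [Matrix.det_fin_two]
          simp only [Matrix.of_apply, Wd]
          ring
      simp only [e]
      exact this
    | zero =>
      obtain ⟨φ, -, a2⟩ := (A.zero_mem).1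
      refine ⟨fun _ => 0, analyticAt_const, a2.mono fun w c => ?_⟩
      rw [zero_div]
      exact ⟨c.1, c.2.1, by rw [(vl_zero c.1).2, zero_mul]⟩
    | add q q' _ _ hq hq' => rw [add_div]; exact hq.add hq'
    | smul r q _ hq =>
      rw [Subalgebra.smul_def, smul_eq_mul, mul_div_assoc]
      simpa using ((hloc _ r.2).1.1.tw (u := u) (α := α)).mul hq
  obtain ⟨φ, a1, a2⟩ := h3
  exact ⟨φ, a1, a2.mono fun w c => c.2.2⟩

end Pool.Agent.MP_c69980_ag.H39
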