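import Pool.Agent.MP_c69980_ag.H4.SpecB

/-!
Row 9, first part: growth of integral elements and the chain rule along discs.
-/

set_option autoImplicit false

noncomputable section

namespace Pool.Agent.MP_c69980_ag.H39

open MvPolynomial Metric Filter Topology Set
open H60 H4

variable {n : ℕ} {K : Type} [Field K] [Algebra ℂ K] {z : Fin n → K} {y : Fin n → ℂ} {f g : K}
  {E : Fin 2 → Derivation ℂ K K} {u : Fin 2 → K} {U : Set (PS n)} {R : ℝ} {x : ℂ → Fin n → ℂ}
  {w : ℂ}

lemma poly_growth {k : ℕ} (c : PR k) : ∃ (A : ℝ) (M : ℕ), 0 ≤ A ∧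
    ∀ v : Fin k → ℂ, ‖eval v c‖ ≤ A * (1 + ‖v‖) ^ M := by
  induction c using MvPolynomial.induction_on with
  | C c => exact ⟨‖c‖, 0, norm_nonneg _, fun v => by simp⟩
  | add p q hp hq =>
    obtain ⟨A, M, a, b⟩ := hp
    obtain ⟨A', M', a', b'⟩ := hq
    refine ⟨A + A', M + M', by positivity, fun v => ?_⟩
    have h1 : 1 ≤ 1 + ‖v‖ := by linarith [norm_nonneg v]
    have h2 := mul_le_mul_of_nonneg_left (pow_le_pow_right₀ h1 (Nat.le_add_right M M')) a
    have h3 := mul_le_mul_of_nonneg_left (pow_le_pow_right₀ h1 (Nat.le_add_left M' M)) a'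
    rw [map_add, add_mul]
    linarith [norm_add_le (eval v p) (eval v q), b v, b' v]
  | mul_X p i hp =>
    obtain ⟨A, M, a, b⟩ := hp
    refine ⟨A, M + 1, a, fun v => ?_⟩
    rw [map_mul, eval_X, norm_mul, pow_succ, ← mul_assoc]
    exact mul_le_mul (b v) (by linarith [norm_le_pi_norm v i]) (norm_nonneg _) (by positivity)

theorem intS : IntStmt := by
  intro K _ _ n z u ζ ⟨P, P1, P2⟩
  choose A M a b using fun i => poly_growth (P.coeff i)
  refine ⟨1 + ∑ i ∈ Finset.range P.natDegree, A i, ∑ i ∈ Finset.range P.natDegree, M i,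
    add_pos_of_pos_of_nonneg one_pos (Finset.sum_nonneg fun i _ => a i), fun y hy hu hζ => ?_⟩
  set v : Fin 2 → ℂ := fun i => vl z (u i) y with hv
  let ψ : PR 2 →ₐ[ℂ] rg hy := aeval fun i => (⟨u i, hu i⟩ : rg hy)
  have e1 : (rg hy).val.toRingHom.comp ψ.toRingHom = (aeval u : PR 2 →ₐ[ℂ] K).toRingHom :=
    RingHom.ext fun Q => comp_aeval_apply _ (rg hy).val Q
  have e2 : (chi hy).toRingHom.comp ψ.toRingHom = eval v :=
    RingHom.ext fun Q => comp_aeval_apply _ (chi hy) Q
  have h1 : P.eval₂ ψ.toRingHom (⟨ζ, hζ⟩ : rg hy) = 0 := by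
    apply Subtype.ext
    have := Polynomial.hom_eval₂ P ψ.toRingHom (rg hy).val.toRingHom (⟨ζ, hζ⟩ : rg hy)
    rw [e1] at this
    exact this.trans P2
  have h2 : (P.map (eval v)).IsRoot (vl z ζ y) := by
    have := Polynomial.hom_eval₂ P ψ.toRingHom (chi hy).toRingHom (⟨ζ, hζ⟩ : rg hy)
    rw [e2, h1, map_zero] at this
    rw [Polynomial.IsRoot.def, Polynomial.eval_map]
    exact this.symm
  have hm : (P.map (eval v)).Monic := P1.map _
  have h3 := h2.norm_lt_cauchyBound hm.ne_zero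
  rw [Polynomial.cauchyBound, hm.leadingCoeff, nnnorm_one, div_one, P1.natDegree_map] at h3
  have h0 : 1 ≤ 1 + ‖v‖ := by linarith [norm_nonneg v]
  set T := (1 + ‖v‖) ^ ∑ i ∈ Finset.range P.natDegree, M i with hT
  have hT1 : 1 ≤ T := one_le_pow₀ h0
  have hS : 0 ≤ (∑ i ∈ Finset.range P.natDegree, A i) * T :=
    mul_nonneg (Finset.sum_nonneg fun i _ => a i) (by linarith)
  have h4 : (Finset.range P.natDegree).sup (fun i => ‖(P.map (eval v)).coeff i‖₊) ≤
      ⟨_, hS⟩ := by
    refine Finset.sup_le fun i hi => ?_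
    change ‖(P.map (eval v)).coeff i‖ ≤ (∑ i ∈ Finset.range P.natDegree, A i) * T
    rw [Polynomial.coeff_map]
    refine (b i v).trans (mul_le_mul (Finset.single_le_sum (fun j _ => a j) hi)
      (pow_le_pow_right₀ h0 (Finset.single_le_sum (fun j _ => Nat.zero_le (M j)) hi))
      (by positivity) (Finset.sum_nonneg fun i _ => a i))
  have h5 : ‖vl z ζ y‖ ≤ (∑ i ∈ Finset.range P.natDegree, A i) * T + 1 := by
    have := h3.le.trans (add_le_add_left h4 1)
    exact_mod_cast this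
  rw [add_mul]
  linarith

/-! ### The derivatives `pd` -/

lemma pd_add (i : Fin 2) (f g : K) : pd E u i (f + g) = pd E u i f + pd E u i g := by
  fin_cases i <;> simp [pd, Wd] <;> ring

lemma pd_mul (i : Fin 2) (f g : K) : pd E u i (f * g) = f * pd E u i g + g * pd E u i f := by
  fin_cases i <;> simp [pd, Wd] <;> ring

lemma pd_const (i : Fin 2) (c : ℂ) : pd E u i (algebraMap ℂ K c) = 0 := by
  fin_cases i <;> simp [pd, Wd]

lemma pd_inv (i : Fin 2) (f : K) : pd E u i f⁻¹ = -(f⁻¹ * f⁻¹ * pd E u i f) := by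
  fin_cases i <;> simp [pd, Wd, Derivation.leibniz_inv] <;> ring

lemma wd_pd (h : Wd E (u 0) (u 1) ≠ 0) (f g : K) : Wd E f g / Wd E (u 0) (u 1) =
    pd E u 0 f * pd E u 1 g - pd E u 1 f * pd E u 0 g := by
  simp only [pd, Matrix.cons_val_zero, Matrix.cons_val_one]
  field_simp
  simp only [Wd]
  ring

lemma der_ae {k : ℕ} (D : Derivation ℂ K K) (v : Fin k → K) (P : PR k) :
    D (aeval v P) = ∑ l, aeval v (pderiv l P) * D (v l) := by
  induction P using MvPolynomial.induction_on with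
  | C c => simp
  | add p q hp hq => simp [hp, hq, add_mul, Finset.sum_add_distrib]
  | mul_X p i hp =>
    simp only [map_mul, aeval_X, Derivation.leibniz, hp, smul_eq_mul, map_add, pderiv_X,
      Pi.single_apply, add_mul, Finset.sum_add_distrib, Finset.mul_sum]
    congr 1
    · rw [Finset.sum_eq_single i (fun l _ hl => by simp [hl.symm]) (by simp)]
      simp
    · exact Finset.sum_congr rfl fun l _ => by ring

/-! ### Values -/

lemma vl_zero (hy : On z y) : Reg z y 0 ∧ vl z 0 y = 0 := by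
  simpa using vl_const hy 0

lemma vl_neg (hy : On z y) (h : Reg z y g) : Reg z y (-g) ∧ vl z (-g) y = -vl z g y :=
  ⟨(rg hy).neg_mem h, map_neg (chi hy) ⟨g, h⟩⟩

lemma vl_inv (hy : On z y) (h : Reg z y g) (h0 : vl z g y ≠ 0) :
    Reg z y g⁻¹ ∧ vl z g⁻¹ y = (vl z g y)⁻¹ := by
  obtain ⟨F, G, d, hF, hG, h1, rfl⟩ := h
  rw [vl_eq hy hF hG h1] at h0 ⊢
  have h2 : eval y F ≠ 0 := fun e => h0 (by rw [e, zero_div])
  rw [inv_div, inv_div]
  exact ⟨⟨G, F, d, hG, hF, h2, rfl⟩, vl_eq hy hG hF h2⟩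

lemma near (hz : GenPt U z) (hx : Dk U 0 R x) (hw : w ∈ ball (0 : ℂ) R) (h : Reg z (x w) g) :
    ∀ᶠ s in 𝓝 w, On z (x s) ∧ Reg z (x s) g := by
  obtain ⟨F, G, d, hF, hG, h1, rfl⟩ := h
  filter_upwards [(Hol.at (eval_diff hx.1 G) hw).continuousAt.eventually_ne h1,
    isOpen_ball.mem_nhds hw] with s h2 h3
  exact ⟨Cone.on hz (hx.2 s h3), F, G, d, hF, hG, h2, rfl⟩

lemma sep (hu : IsTranscendenceBasis ℂ u) (g : K) : ∃ P : PR 3, aeval (Fin.cons g u) P = 0 ∧
    aeval (Fin.cons g u : Fin 3 → K) (pderiv 0 P) ≠ 0 := by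
  let _ : Algebra (PR 2) K := (aeval u : PR 2 →ₐ[ℂ] K).toRingHom.toAlgebra
  have hA : ∀ a, algebraMap (PR 2) K a = aeval u a := fun _ => rfl
  have hinj : Function.Injective (algebraMap (PR 2) K) := hu.1
  have hal : IsAlgebraic (PR 2) g :=
    IsAlgebraic.of_ringHom_of_comp_eq hu.1.aevalEquiv.toAlgHom.toRingHom (RingHom.id K)
      (hu.isAlgebraic.isAlgebraic g) hu.1.aevalEquiv.surjective Function.injective_id
      (RingHom.ext fun a => hu.1.algebraMap_aevalEquiv a)
  have e : ∀ q : Polynomial (PR 2), ∃ P : PR 3, aeval (Fin.cons g u) P = q.aeval g ∧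
      aeval (Fin.cons g u : Fin 3 → K) (pderiv 0 P) = q.derivative.aeval g := fun q => by
    induction q using Polynomial.induction_on' with
    | add p q hp hq =>
      obtain ⟨P, a, b⟩ := hp
      obtain ⟨Q, c, d⟩ := hq
      exact ⟨P + Q, by simp only [map_add, a, c], by simp only [map_add, b, d]⟩
    | monomial m c =>
      have a : pderiv 0 (rename Fin.succ c : PR 3) = 0 :=
        pderiv_eq_zero_of_notMem_vars fun h => by simpa using vars_rename _ _ h
      have b : aeval (Fin.cons g u : Fin 3 → K) (rename Fin.succ c) = aeval u c := by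
        rw [aeval_rename]; rfl
      exact ⟨rename Fin.succ c * X 0 ^ m, by simp [b, hA],
        by simp [a, b, hA, Derivation.leibniz_pow, Polynomial.derivative_monomial, mul_assoc]⟩
  have key : ∀ m, ∀ q : Polynomial (PR 2), q.natDegree < m → q ≠ 0 → q.aeval g = 0 →
      ∃ q : Polynomial (PR 2), q.aeval g = 0 ∧ q.derivative.aeval g ≠ 0 := fun m => by
    induction m with
    | zero => simp
    | succ m ih =>
      intro q h1 h2 h3
      by_cases h4 : q.derivative.aeval g = 0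
      · have h5 : q.natDegree ≠ 0 := fun e => by
          rw [Polynomial.eq_C_of_natDegree_eq_zero e, Polynomial.aeval_C,
            map_eq_zero_iff _ hinj] at h3
          exact h2 (by rw [Polynomial.eq_C_of_natDegree_eq_zero e, h3, map_zero])
        exact ih _ ((Polynomial.natDegree_derivative_lt h5).trans_le (by omega))
          (fun e => h5 (Polynomial.derivative_eq_zero.1 e)) h4
      · exact ⟨q, h3, h4⟩
  obtain ⟨q, q1, q2⟩ := hal
  obtain ⟨q, q1, q2⟩ := key _ q (Nat.lt_succ_self _) q1 q2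
  obtain ⟨P, a, b⟩ := e q
  exact ⟨P, a.trans q1, b ▸ q2⟩

theorem chainS : ChainStmt := by
  classical
  intro K _ _ n U z E u g hz hu hW
  obtain ⟨P, h1, h2⟩ := sep hu g
  set v : Fin 3 → K := Fin.cons g u with hv
  let q : Fin 3 → K := fun l => aeval v (pderiv l P)
  have hd : ∀ k, q 0 * E k g + q 1 * E k (u 0) + q 2 * E k (u 1) = 0 := fun k => by
    have := der_ae (E k) v P
    rw [h1, map_zero, Fin.sum_univ_three] at this
    exact this.symm
  have hp : ∀ i : Fin 2, pd E u i g = -(q i.succ * (q 0)⁻¹) := fun i => by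
    have a0 := hd 0
    have a1 := hd 1
    have q0 : q 0 ≠ 0 := h2
    fin_cases i
    · change Wd E g (u 1) / Wd E (u 0) (u 1) = -(q 1 * (q 0)⁻¹)
      field_simp
      simp only [Wd]
      linear_combination E 1 (u 1) * a0 - E 0 (u 1) * a1
    · change Wd E (u 0) g / Wd E (u 0) (u 1) = -(q 2 * (q 0)⁻¹)
      field_simp
      simp only [Wd]
      linear_combination E 0 (u 0) * a1 - E 1 (u 0) * a0
  refine ⟨({g, u 0, u 1, q 0} : Finset K).erase 0, Finset.notMem_erase _ _,
    fun R x w hx hw hS => ?_⟩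
  have hy : On z (x w) := Cone.on hz (hx.2 w hw)
  have hr : ∀ s ∈ ({g, u 0, u 1, q 0} : Finset K), Reg z (x w) s := fun s hs => by
    by_cases s0 : s = 0
    · rw [s0]; exact (vl_zero hy).1
    · exact (hS s (Finset.mem_erase.2 ⟨s0, hs⟩)).1
  have r0 : ∀ l, Reg z (x w) (v l) := fun l => by
    fin_cases l
    · exact hr g (by simp)
    · exact hr (u 0) (by simp)
    · exact hr (u 1) (by simp)
  have u0 := hS (q 0) (Finset.mem_erase.2 ⟨h2, by simp⟩)
  have i0 := vl_inv hy u0.1 u0.2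
  have rq : ∀ l, Reg z (x w) (q l) := fun l => (vl_aeval hy r0 _).1
  have hpd : ∀ i : Fin 2, Reg z (x w) (pd E u i g) ∧
      vl z (pd E u i g) (x w) = -(vl z (q i.succ) (x w) * (vl z (q 0) (x w))⁻¹) := fun i => by
    have a := vl_mul hy (rq i.succ) i0.1
    have b := vl_neg hy a.1
    rw [hp i]
    exact ⟨b.1, by rw [b.2, a.2, i0.2]⟩
  refine ⟨fun i => (hpd i).1, ?_⟩
  have d1 := chain (x := fun s l => vl z (v l) (x s)) (hasDerivAt_pi.2 fun l =>
    (hx.an hz hw (r0 l)).differentiableAt.hasDerivAt) P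
  have d3 : (fun s => eval (fun l => vl z (v l) (x s)) P) =ᶠ[𝓝 w] fun _ => 0 := by
    filter_upwards [eventually_all.2 fun l => near hz hx hw (r0 l)] with s hs
    rw [← (vl_aeval (hs 0).1 (fun l => (hs l).2) P).2, h1]
    exact (vl_zero (hs 0).1).2
  have d4 := d1.unique ((hasDerivAt_const _ _).congr_of_eventuallyEq d3)
  rw [Fin.sum_univ_three] at d4
  simp only [← (vl_aeval hy r0 _).2] at d4
  rw [Fin.sum_univ_two, (hpd 0).2, (hpd 1).2]
  change vl z (q 0) (x w) * deriv (fun s => vl z g (x s)) w +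
    vl z (q 1) (x w) * deriv (fun s => vl z (u 0) (x s)) w +
    vl z (q 2) (x w) * deriv (fun s => vl z (u 1) (x s)) w = 0 at d4
  change _ = -(vl z (q 1) (x w) * _) * _ + -(vl z (q 2) (x w) * _) * _
  have := u0.2
  field_simp
  linear_combination d4

end Pool.Agent.MP_c69980_ag.H39
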